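import Mathlib

set_option autoImplicit false

namespace Pool.Agent.Results.MP_607283_al.Yes

universe u

/-- intersection of the kernels of all continuous homomorphisms to GL_n(C) -/
def KO (G : Type u) [Group G] [TopologicalSpace G] : Subgroup G :=
  ⨅ (n : ℕ) (ρ : G →ₜ* GL (Fin n) ℂ), ρ.toMonoidHom.ker

variable (A : Type u) [CommGroup A]

def D : Type u := A × ℕ × Bool →₀ ℤ
noncomputable instance : AddCommGroup (D A) := inferInstanceAs (AddCommGroup (_ →₀ ℤ))
instance : TopologicalSpace (D A) := ⊥
instance : DiscreteTopology (D A) := ⟨rfl⟩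

variable {A}
def co (x : D A) (c : A × ℕ × Bool) : ℤ := (show A × ℕ × Bool →₀ ℤ from x) c

noncomputable def B (x y : D A) : A :=
  Finsupp.prod x fun c m => if c.2.2 then c.1 ^ (m * co y (c.1, c.2.1, false)) else 1

lemma B_add (x x' y : D A) : B (x + x') y = B x y * B x' y :=
  Finsupp.prod_add_index' (by simp) fun c _ _ => by split_ifs <;> simp [add_mul, zpow_add]

lemma B_add' (x y y' : D A) : B x (y + y') = B x y * B x y' := by
  rw [B, B, B, ← Finsupp.prod_mul]
  refine Finsupp.prod_congr fun c _ => ?_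
  rw [show co (y + y') _ = co y _ + co y' _ from rfl]
  split_ifs <;> simp [mul_add, zpow_add]

@[simp] lemma B_zero (y : D A) : B 0 y = 1 := Finsupp.prod_zero_index
@[simp] lemma B_zero' (x : D A) : B x 0 = 1 := by simpa using B_add' x 0 0

variable (A) in
def G : Type u := D A × A

noncomputable instance : Mul (G A) := ⟨fun p q => (p.1 + q.1, p.2 * q.2 * B p.1 q.1)⟩
noncomputable instance : One (G A) := ⟨(0, 1)⟩
noncomputable instance : Inv (G A) := ⟨fun p => (-p.1, (p.2 * B (-p.1) p.1)⁻¹)⟩

noncomputable instance : Group (G A) := .ofLeftAxioms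
  (fun p q r => Prod.ext (add_assoc _ _ _) (by
    change p.2 * q.2 * B p.1 q.1 * r.2 * B (p.1 + q.1) r.1 =
      p.2 * (q.2 * r.2 * B q.1 r.1) * B p.1 (q.1 + r.1)
    rw [B_add, B_add']; ac_rfl))
  (fun p => Prod.ext (zero_add _) (by change 1 * p.2 * B 0 p.1 = _; simp))
  (fun p => Prod.ext (neg_add_cancel _) (by
    change (p.2 * B (-p.1) p.1)⁻¹ * p.2 * B (-p.1) p.1 = 1
    rw [mul_assoc, inv_mul_cancel]))

noncomputable def e (c : A × ℕ × Bool) : G A := (Finsupp.single c 1, 1)

noncomputable def ι (a : A) : G A := (0, a)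

open Classical in
lemma B_e (c d : A × ℕ × Bool) : B (e c).1 (e d).1 =
    if c.2.2 ∧ d = (c.1, c.2.1, false) then c.1 else 1 := by
  rw [B, e, Finsupp.prod_single_index (by simp)]
  by_cases h : d = (c.1, c.2.1, false) <;> simp [e, co, h]

lemma kill {n : ℕ} (ρ : G A →* GL (Fin n) ℂ) (a : A) : ρ (ι a) = 1 := by
  obtain ⟨i, hi⟩ : ∃ i : ℕ, (ρ (e (a, i, true))).1 ∈ Submodule.span ℂ
      ((fun i => (ρ (e (a, i, true))).1) '' (Set.univ \ {i})) := by
    by_contra h
    exact Module.Finite.not_linearIndependent_of_infinite (R := ℂ) _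
      (linearIndependent_iff_notMem_span.2 fun i h' => h ⟨i, h'⟩)
  have hc : Commute (ρ (e (a, i, false))).1 (ρ (e (a, i, true))).1 := by
    refine Submodule.span_induction (p := fun x _ => Commute (ρ (e (a, i, false))).1 x) ?_
      (.zero_right _) (fun _ _ _ _ => .add_right) (fun _ _ _ h => h.smul_right _) hi
    rintro _ ⟨j, hj, rfl⟩
    refine Commute.units_val (.map (show e _ * e _ = e _ * e _ from
      Prod.ext (add_comm _ _) ?_) ρ)
    change 1 * 1 * B (e _).1 (e _).1 = 1 * 1 * B (e _).1 (e _).1
    have : i ≠ j := fun h => hj.2 h.symm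
    simp [B_e, this]
  have : e (a, i, true) * e (a, i, false) = ι a * (e (a, i, false) * e (a, i, true)) :=
    Prod.ext ((add_comm _ _).trans (zero_add _).symm) (by
      change 1 * 1 * B (e _).1 (e _).1 = a * (1 * 1 * B (e _).1 (e _).1) * B 0 _
      simp [B_e])
  have := congrArg ρ this
  rw [map_mul, map_mul, map_mul, (Commute.units_of_val hc).eq] at this
  exact (mul_eq_right.1 this.symm)

variable [TopologicalSpace A] [IsTopologicalGroup A]

instance : TopologicalSpace (G A) := inferInstanceAs (TopologicalSpace (D A × A))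

instance : IsTopologicalGroup (G A) where
  continuous_mul := by
    have h : Continuous fun p : (D A × A) × D A × A => (p.1.1, p.2.1) := by fun_prop
    exact ((continuous_of_discreteTopology (f := fun p : D A × D A => p.1 + p.2)).comp h).prodMk
      ((continuous_fst.snd.mul continuous_snd.snd).mul
        ((continuous_of_discreteTopology (f := fun p : D A × D A => B p.1 p.2)).comp h))
  continuous_inv := (continuous_of_discreteTopology.comp continuous_fst).prodMk
    (continuous_snd.mul ((continuous_of_discreteTopology (f := fun p : D A => B (-p) p)).comp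
      continuous_fst)).inv

omit [IsTopologicalGroup A] in
lemma mem (p : G A) : p ∈ KO (G A) ↔ p.1 = 0 := by
  simp only [KO, Subgroup.mem_iInf, MonoidHom.mem_ker]
  refine ⟨fun h => Finsupp.ext fun c => ?_, fun h n ρ => ?_⟩
  · let w : ℂˣ := .mk0 2 two_ne_zero
    let s := Units.map (Matrix.scalar (Fin 1) : ℂ →+* _).toMonoidHom
    have := h 1 ⟨⟨⟨fun q => s (w ^ co q.1 c), by rw [show co (1 : G A).1 c = 0 from rfl]; simp⟩,
      fun p q => by rw [← map_mul, ← zpow_add]; rfl⟩,
      (continuous_of_discreteTopology (f := fun q : D A => s (w ^ co q c))).comp continuous_fst⟩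
    have : (2 : ℂ) ^ co p.1 c = 1 := by
      simpa [s, w, -map_zpow] using congrArg (fun m => m.1 0 0) this
    exact zpow_right_injective₀ (a := (2 : ℝ)) (by norm_num) (by norm_num)
      (show (2 : ℝ) ^ co p.1 c = 2 ^ (0 : ℤ) by simpa using congrArg norm this)
  · exact (congrArg ρ (show p = ι p.2 from Prod.ext h rfl)).trans (kill ρ.toMonoidHom p.2)

theorem result (A : Type u) [CommGroup A] [TopologicalSpace A] [IsTopologicalGroup A] [T2Space A]
    [LocallyCompactSpace A] : ∃ (G : Type u) (_ : Group G) (_ : TopologicalSpace G),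
      IsTopologicalGroup G ∧ T2Space G ∧ LocallyCompactSpace G ∧ Nonempty (KO G ≃ₜ* A) :=
  ⟨G A, _, _, inferInstance, inferInstanceAs (T2Space (D A × A)),
    inferInstanceAs (LocallyCompactSpace (D A × A)), ⟨
    { toFun p := p.1.2
      invFun a := ⟨ι a, (mem _).2 rfl⟩
      left_inv p := Subtype.ext (Prod.ext ((mem _).1 p.2).symm rfl)
      right_inv _ := rfl
      map_mul' p q := by
        change p.1.2 * q.1.2 * B p.1.1 q.1.1 = _
        rw [(mem _).1 p.2, B_zero, mul_one]
      continuous_toFun := continuous_subtype_val.snd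
      continuous_invFun := (continuous_const.prodMk continuous_id).subtype_mk _ }⟩⟩

end Pool.Agent.Results.MP_607283_al.Yes
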